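import Pool.Agent.R476.OR.Stm2
import Pool.Agent.Z864.RG.LDK

/-!
# Project OR: variance bounds from a bounded density (OR-E2)
-/

set_option autoImplicit false

namespace Pool.Agent.R834.OR

open MeasureTheory Set Filter Topology
open scoped ENNReal InnerProductSpace
open Pool.Agent.W695.KH (Eu)
open Pool.Agent.Y506.RG (ND OB EW VW ILK)
open Pool.Agent.R476.OR

/-- lower bound for second moments -/
theorem low_of_bd (P : ℝ → ℝ≥0∞) (hm : Measurable P) (C : ℝ) (hC : 0 < C)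
    (h1 : ∀ u, P u ≤ ENNReal.ofReal C) (h2 : ∫⁻ u, P u = 1) (a : ℝ) :
    ENNReal.ofReal (1 / (32 * C ^ 2)) ≤ ∫⁻ u, ENNReal.ofReal ((u - a) ^ 2) * P u := by
  obtain ⟨I, hI⟩ : ∃ I : Set ℝ, I = Metric.closedBall a (1 / (4 * C)) := ⟨_, rfl⟩
  have hIm : MeasurableSet I := by rw [hI]; exact measurableSet_closedBall
  have h3 : ∫⁻ u in I, P u ≤ ENNReal.ofReal (1 / 2) := by
    calc ∫⁻ u in I, P u ≤ ∫⁻ _ in I, ENNReal.ofReal C := lintegral_mono fun u => h1 u
      _ = ENNReal.ofReal C * volume I := by rw [setLIntegral_const]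
      _ = ENNReal.ofReal (1 / 2) := by
          rw [hI, Real.volume_closedBall, ← ENNReal.ofReal_mul hC.le]
          congr 1
          field_simp
          norm_num
  have h4 : ENNReal.ofReal (1 / 2) ≤ ∫⁻ u in Iᶜ, P u := by
    have h5 := lintegral_add_compl (μ := volume) P hIm
    rw [h2] at h5
    by_contra hn
    rw [not_le] at hn
    have h6 : (∫⁻ u in I, P u) + (∫⁻ u in Iᶜ, P u) < 1 := by
      calc (∫⁻ u in I, P u) + (∫⁻ u in Iᶜ, P u)
          < ENNReal.ofReal (1 / 2) + ENNReal.ofReal (1 / 2) :=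
            ENNReal.add_lt_add_of_le_of_lt (ne_top_of_le_ne_top ENNReal.ofReal_ne_top h3) h3 hn
        _ = 1 := by
            rw [← ENNReal.ofReal_add (by norm_num) (by norm_num)]
            norm_num
    exact absurd h5 h6.ne
  calc ENNReal.ofReal (1 / (32 * C ^ 2)) = ENNReal.ofReal ((1 / (4 * C)) ^ 2) *
        ENNReal.ofReal (1 / 2) := by
        rw [← ENNReal.ofReal_mul (by positivity)]
        congr 1
        field_simp
        norm_num
    _ ≤ ENNReal.ofReal ((1 / (4 * C)) ^ 2) * ∫⁻ u in Iᶜ, P u := mul_le_mul_right h4 _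
    _ = ∫⁻ u in Iᶜ, ENNReal.ofReal ((1 / (4 * C)) ^ 2) * P u := (lintegral_const_mul _ hm).symm
    _ ≤ ∫⁻ u in Iᶜ, ENNReal.ofReal ((u - a) ^ 2) * P u := by
        refine setLIntegral_mono' hIm.compl fun u hu => ?_
        refine mul_le_mul_left (ENNReal.ofReal_le_ofReal ?_) _
        rw [hI, mem_compl_iff, Metric.mem_closedBall, not_le, Real.dist_eq] at hu
        rw [← sq_abs (u - a)]
        exact pow_le_pow_left₀ (by positivity) hu.le 2
    _ ≤ _ := setLIntegral_le_lintegral _ _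

/-- upper bound for second moments -/
theorem up_of_bd (P : ℝ → ℝ≥0∞) (hm : Measurable P) (A : ℝ) (hA : 0 < A)
    (h4 : ∀ u, ENNReal.ofReal (u ^ 4) * P u ≤ ENNReal.ofReal A) (h2 : ∫⁻ u, P u = 1) :
    ∫⁻ u, ENNReal.ofReal (u ^ 2) * P u ≤ ENNReal.ofReal (1 + 2 * Real.pi * A) := by
  have hpt : ∀ u, ENNReal.ofReal (u ^ 2) * P u ≤
      P u + ENNReal.ofReal (2 * A * (1 + u ^ 2)⁻¹) := by
    intro u
    rcases le_total (u ^ 2) 1 with h | h
    · refine le_add_right ?_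
      calc ENNReal.ofReal (u ^ 2) * P u ≤ 1 * P u :=
            mul_le_mul_left (by rw [← ENNReal.ofReal_one]; exact ENNReal.ofReal_le_ofReal h) _
        _ = P u := one_mul _
    · refine le_add_left ?_
      have hu : 0 < u ^ 2 := by linarith
      calc ENNReal.ofReal (u ^ 2) * P u
          = ENNReal.ofReal ((u ^ 2)⁻¹) * (ENNReal.ofReal (u ^ 4) * P u) := by
            rw [← mul_assoc, ← ENNReal.ofReal_mul (by positivity)]
            congr 2
            field_simp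
        _ ≤ ENNReal.ofReal ((u ^ 2)⁻¹) * ENNReal.ofReal A := mul_le_mul_right (h4 u) _
        _ = ENNReal.ofReal ((u ^ 2)⁻¹ * A) := (ENNReal.ofReal_mul (by positivity)).symm
        _ ≤ ENNReal.ofReal (2 * A * (1 + u ^ 2)⁻¹) := by
            apply ENNReal.ofReal_le_ofReal
            rw [inv_mul_eq_div, ← div_eq_mul_inv, div_le_div_iff₀ hu (by positivity)]
            nlinarith
  refine (lintegral_mono hpt).trans ?_
  rw [lintegral_add_left hm, h2, ENNReal.ofReal_add (by norm_num) (by positivity),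
    ENNReal.ofReal_one]
  refine add_le_add le_rfl ?_
  rw [← ofReal_integral_eq_lintegral_ofReal (integrable_inv_one_add_sq.const_mul _)
    (Eventually.of_forall fun u => by positivity), integral_const_mul,
    integral_univ_inv_one_add_sq]
  apply ENNReal.ofReal_le_ofReal
  linarith [mul_comm (2 * A) Real.pi]

theorem sv_cont {n : ℕ} {V V' : Fin n → ℝ → ℝ} (hV : ∀ i, NV (V i) (V' i)) :
    Continuous (SV V) := by
  have h : ∀ i, Continuous (V i) := fun i =>
    continuous_iff_continuousAt.2 fun t => ((hV i).cv.der t).continuousAt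
  unfold SV
  refine continuous_finsetSum _ fun i _ => (h i).comp ?_
  fun_prop

theorem kv_comp {n : ℕ} {V V' : Fin n → ℝ → ℝ} (hV : ∀ i, NV (V i) (V' i)) {E : ℝ}
    (hE : LVL V E) : IsCompact (KV V E) :=
  Metric.isCompact_of_isClosed_isBounded (isClosed_le (sv_cont hV) continuous_const) hE.bdd

theorem ew_ind {n : ℕ} (K : Set (Eu (Fin n))) (hK : MeasurableSet K) (f : Eu (Fin n) → ℝ) :
    EW (ind K) f = (∫ x in K, f x) / (volume K).toReal := by
  unfold EW
  have e1 : (fun x => f x * ind K x) = K.indicator f := by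
    funext x
    by_cases hx : x ∈ K <;> simp [ind, hx]
  have e2 : ∫ x, ind K x = (volume K).toReal := by
    unfold ind
    rw [integral_indicator hK]
    simp [Measure.real]
  rw [e1, e2, integral_indicator hK]

theorem vw_ind {n : ℕ} (K : Set (Eu (Fin n))) (hK : IsCompact K) (hv : 0 < (volume K).toReal)
    (f : Eu (Fin n) → ℝ) (hf : Continuous f) :
    VW (ind K) f = (∫ x in K, (f x - EW (ind K) f) ^ 2) / (volume K).toReal := by
  have hm := hK.measurableSet
  have i1 : IntegrableOn f K := hf.continuousOn.integrableOn_compact hK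
  have i2 : IntegrableOn (fun x => f x ^ 2) K := (hf.pow 2).continuousOn.integrableOn_compact hK
  set a := EW (ind K) f with ha
  have ha' : ∫ x in K, f x = a * (volume K).toReal := by
    rw [ha, ew_ind K hm]; field_simp
  have i3 : IntegrableOn (fun _ : Eu (Fin n) => a ^ 2) K :=
    continuous_const.continuousOn.integrableOn_compact hK
  have e : ∫ x in K, (f x - a) ^ 2 = (∫ x in K, f x ^ 2) - a ^ 2 * (volume K).toReal := by
    have : (fun x => (f x - a) ^ 2) = fun x => (f x ^ 2 - 2 * a * f x) + a ^ 2 := by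
      funext x; ring
    have q1 : ∫ x in K, (f x ^ 2 - 2 * a * f x + a ^ 2) =
        (∫ x in K, (f x ^ 2 - 2 * a * f x)) + ∫ _ in K, a ^ 2 :=
      integral_add (i2.sub (i1.const_mul (2 * a))) i3
    have q2 : ∫ x in K, (f x ^ 2 - 2 * a * f x) =
        (∫ x in K, f x ^ 2) - ∫ x in K, 2 * a * f x :=
      integral_sub i2 (i1.const_mul (2 * a))
    rw [this, q1, q2, integral_const_mul, ha', setIntegral_const, smul_eq_mul, Measure.real]
    ring
  rw [e]
  unfold VW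
  rw [ew_ind K hm (fun x => f x ^ 2), ← ha]
  field_simp

theorem main {n : ℕ} {V V' : Fin (n + 1) → ℝ → ℝ} (hV : ∀ i, NV (V i) (V' i)) {E : ℝ}
    (hE : LVL V E) (θ : Eu (Fin (n + 1))) (g : Eu (Fin 2) → ℝ≥0∞) (hgm : Measurable g)
    (C0 cP : ℝ) (hC0 : 0 < C0) (hcP : 0 < cP) (hg1 : ∀ z, g z ≤ ENNReal.ofReal C0)
    (hg4 : ∀ z, ENNReal.ofReal (‖z‖ ^ 4) * g z ≤ ENNReal.ofReal C0)
    (hb : ⟪bb V, θ⟫_ℝ ^ 2 < sg V)
    (hform : ∀ φ : ℝ → ℝ≥0∞, Measurable φ →
      ∫⁻ x in KV V E, φ ⟪θ, x⟫_ℝ = ENNReal.ofReal (Real.exp E / Real.sqrt (sg V)) *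
      ∫⁻ z : ℝ, φ (tau V θ * z + ⟪bb V, θ⟫_ℝ / Real.sqrt (sg V) * ((E - mm V) / Real.sqrt (sg V))) *
        g (WithLp.toLp 2 ![z, (E - mm V) / Real.sqrt (sg V)]))
    (hpl : cP ≤ Real.sqrt (sg V) * ((volume (KV V E)).toReal * Real.exp (-E))) :
    1 / (32 * (C0 / cP) ^ 2) * (1 - ⟪bb V, θ⟫_ℝ ^ 2 / sg V) ≤
      VW (ind (KV V E)) (fun x => ⟪x, θ⟫_ℝ) ∧
    (⟪bb V, θ⟫_ℝ = 0 → VW (ind (KV V E)) (fun x => ⟪x, θ⟫_ℝ) ≤ 1 + 2 * Real.pi * (C0 / cP)) := by
  have hsg : 0 < sg V := lt_of_le_of_lt (sq_nonneg _) hb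
  have hs : 0 < Real.sqrt (sg V) := Real.sqrt_pos.2 hsg
  have hK := kv_comp hV hE
  have hfin : volume (KV V E) ≠ ⊤ := hK.measure_lt_top.ne
  have hv : 0 < (volume (KV V E)).toReal := ENNReal.toReal_pos hE.pos.ne' hfin
  set v := (volume (KV V E)).toReal with hvdef
  have hvol : volume (KV V E) = ENNReal.ofReal v := (ENNReal.ofReal_toReal hfin).symm
  set ζ := (E - mm V) / Real.sqrt (sg V) with hζ
  set β' := ⟪bb V, θ⟫_ℝ / Real.sqrt (sg V) * ζ with hβ'
  set q := Real.exp E / Real.sqrt (sg V) with hq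
  have hqp : 0 < q := div_pos (Real.exp_pos _) hs
  have hA : 0 < C0 / cP := div_pos hC0 hcP
  -- the density
  set P : ℝ → ℝ≥0∞ := fun z => ENNReal.ofReal (q / v) * g (WithLp.toLp 2 ![z, ζ]) with hP
  have hvec : Measurable fun z : ℝ => (WithLp.toLp 2 ![z, ζ] : Eu (Fin 2)) := by
    apply Continuous.measurable
    refine (PiLp.continuous_toLp 2 _).comp ?_
    refine continuous_pi fun i => ?_
    fin_cases i
    · simpa using! continuous_id
    · simpa using! continuous_const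
  have hPm : Measurable P := (hgm.comp hvec).const_mul _
  have hform' : ∀ φ : ℝ → ℝ≥0∞, Measurable φ →
      ∫⁻ x in KV V E, φ ⟪θ, x⟫_ℝ = ENNReal.ofReal v * ∫⁻ z, φ (tau V θ * z + β') * P z := by
    intro φ hφ
    rw [hform φ hφ]
    have hmeas : Measurable fun z : ℝ => φ (tau V θ * z + β') * g (WithLp.toLp 2 ![z, ζ]) :=
      (hφ.comp (by fun_prop)).mul (hgm.comp hvec)
    have hmeas2 : Measurable fun z : ℝ => φ (tau V θ * z + β') * P z :=
      (hφ.comp (by fun_prop)).mul hPm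
    rw [← lintegral_const_mul _ hmeas, ← lintegral_const_mul _ hmeas2]
    refine lintegral_congr fun z => ?_
    have e : ENNReal.ofReal q = ENNReal.ofReal v * ENNReal.ofReal (q / v) := by
      rw [← ENNReal.ofReal_mul hv.le]; congr 1; field_simp
    rw [e]
    show ENNReal.ofReal v * ENNReal.ofReal (q / v) *
        (φ (tau V θ * z + β') * g (WithLp.toLp 2 ![z, ζ])) =
      ENNReal.ofReal v * (φ (tau V θ * z + β') *
        (ENNReal.ofReal (q / v) * g (WithLp.toLp 2 ![z, ζ])))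
    ring
  have hP1 : ∫⁻ z, P z = 1 := by
    have h := hform' (fun _ => 1) measurable_const
    simp only [one_mul, lintegral_one, Measure.restrict_apply_univ] at h
    rw [hvol] at h
    have hv0 : ENNReal.ofReal v ≠ 0 := (ENNReal.ofReal_pos.2 hv).ne'
    have h' : ENNReal.ofReal v * 1 = ENNReal.ofReal v * ∫⁻ z, P z := by rw [mul_one]; exact h
    exact ((ENNReal.mul_right_inj hv0 ENNReal.ofReal_ne_top).1 h').symm
  have hqv : q / v ≤ 1 / cP := by
    rw [div_le_div_iff₀ hv hcP, one_mul, hq, div_mul_eq_mul_div, div_le_iff₀ hs]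
    have h := mul_le_mul_of_nonneg_left hpl (Real.exp_pos E).le
    have e : Real.exp E * (Real.sqrt (sg V) * (v * Real.exp (-E))) = v * Real.sqrt (sg V) := by
      rw [Real.exp_neg]; field_simp
    rw [e] at h
    exact h
  have hPC : ∀ z, P z ≤ ENNReal.ofReal (C0 / cP) := by
    intro z
    calc P z ≤ ENNReal.ofReal (1 / cP) * ENNReal.ofReal C0 :=
          mul_le_mul' (ENNReal.ofReal_le_ofReal hqv) (hg1 _)
      _ = ENNReal.ofReal (C0 / cP) := by
          rw [← ENNReal.ofReal_mul (by positivity)]; congr 1; ring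
  have hP4 : ∀ z, ENNReal.ofReal (z ^ 4) * P z ≤ ENNReal.ofReal (C0 / cP) := by
    intro z
    have hn : z ^ 4 ≤ ‖(WithLp.toLp 2 ![z, ζ] : Eu (Fin 2))‖ ^ 4 := by
      have h1 : z ^ 2 ≤ ‖(WithLp.toLp 2 ![z, ζ] : Eu (Fin 2))‖ ^ 2 := by
        rw [EuclideanSpace.norm_sq_eq, Fin.sum_univ_two]
        simp only [Real.norm_eq_abs, sq_abs]
        show z ^ 2 ≤ z ^ 2 + ζ ^ 2
        nlinarith [sq_nonneg ζ]
      calc z ^ 4 = (z ^ 2) ^ 2 := by ring
        _ ≤ (‖(WithLp.toLp 2 ![z, ζ] : Eu (Fin 2))‖ ^ 2) ^ 2 := pow_le_pow_left₀ (sq_nonneg _) h1 2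
        _ = _ := by ring
    calc ENNReal.ofReal (z ^ 4) * P z
        = ENNReal.ofReal (q / v) * (ENNReal.ofReal (z ^ 4) * g (WithLp.toLp 2 ![z, ζ])) := by
          simp only [hP]; ring
      _ ≤ ENNReal.ofReal (1 / cP) * ENNReal.ofReal C0 := by
          refine mul_le_mul' (ENNReal.ofReal_le_ofReal hqv) ?_
          exact (mul_le_mul_left (ENNReal.ofReal_le_ofReal hn) _).trans (hg4 _)
      _ = ENNReal.ofReal (C0 / cP) := by
          rw [← ENNReal.ofReal_mul (by positivity)]; congr 1; ring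
  -- the variance
  have hfc : Continuous fun x : Eu (Fin (n + 1)) => ⟪x, θ⟫_ℝ := by fun_prop
  set a := EW (ind (KV V E)) (fun x => ⟪x, θ⟫_ℝ) with ha
  have hvar := vw_ind (KV V E) hK hv (fun x => ⟪x, θ⟫_ℝ) hfc
  rw [← ha] at hvar
  have hVW : ∀ b : ℝ, ENNReal.ofReal ((∫ x in KV V E, (⟪x, θ⟫_ℝ - b) ^ 2) / v) =
      ∫⁻ z, ENNReal.ofReal ((tau V θ * z + β' - b) ^ 2) * P z := by
    intro b
    have hi : IntegrableOn (fun x : Eu (Fin (n + 1)) => (⟪x, θ⟫_ℝ - b) ^ 2) (KV V E) :=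
      ((hfc.sub continuous_const).pow 2).continuousOn.integrableOn_compact hK
    have h5 := hform' (fun u => ENNReal.ofReal ((u - b) ^ 2)) (by fun_prop)
    have h6 : ∫⁻ x in KV V E, ENNReal.ofReal ((⟪θ, x⟫_ℝ - b) ^ 2) =
        ENNReal.ofReal (∫ x in KV V E, (⟪x, θ⟫_ℝ - b) ^ 2) := by
      rw [ofReal_integral_eq_lintegral_ofReal hi (Eventually.of_forall fun x => sq_nonneg _)]
      simp only [real_inner_comm]
    rw [h6] at h5
    have hv0 : ENNReal.ofReal v ≠ 0 := (ENNReal.ofReal_pos.2 hv).ne'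
    rw [ENNReal.ofReal_div_of_pos hv, h5, mul_comm,
      ENNReal.mul_div_cancel_right hv0 ENNReal.ofReal_ne_top]
  have htau : 0 < 1 - ⟪bb V, θ⟫_ℝ ^ 2 / sg V := by
    rw [sub_pos, div_lt_one hsg]; exact hb
  have htp : 0 < tau V θ := Real.sqrt_pos.2 htau
  have ht2 : tau V θ ^ 2 = 1 - ⟪bb V, θ⟫_ℝ ^ 2 / sg V := Real.sq_sqrt htau.le
  have hVn : 0 ≤ VW (ind (KV V E)) (fun x => ⟪x, θ⟫_ℝ) := by
    rw [hvar]
    exact div_nonneg (integral_nonneg fun x => sq_nonneg _) hv.le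
  constructor
  · rw [← ENNReal.ofReal_le_ofReal_iff hVn, hvar, hVW a, ← ht2, mul_comm,
      ENNReal.ofReal_mul (sq_nonneg _)]
    have h7 := low_of_bd P hPm (C0 / cP) hA hPC hP1 ((a - β') / tau V θ)
    refine (mul_le_mul_right h7 _).trans ?_
    rw [← lintegral_const_mul _ (by fun_prop)]
    refine le_of_eq (lintegral_congr fun z => ?_)
    rw [← mul_assoc, ← ENNReal.ofReal_mul (sq_nonneg _)]
    congr 2
    rw [← mul_pow]
    congr 1
    field_simp
    ring
  · intro hb0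
    have hB : 0 ≤ 1 + 2 * Real.pi * (C0 / cP) := by positivity
    rw [← ENNReal.ofReal_le_ofReal_iff hB]
    have h8 : VW (ind (KV V E)) (fun x => ⟪x, θ⟫_ℝ) ≤
        (∫ x in KV V E, (⟪x, θ⟫_ℝ - 0) ^ 2) / v := by
      unfold VW
      rw [ew_ind (KV V E) hK.measurableSet (fun x => ⟪x, θ⟫_ℝ ^ 2)]
      simp only [sub_zero]
      linarith [sq_nonneg (EW (ind (KV V E)) (fun x => ⟪x, θ⟫_ℝ))]
    refine (ENNReal.ofReal_le_ofReal h8).trans ?_
    rw [hVW 0]
    have ht1 : tau V θ = 1 := by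
      unfold tau
      rw [hb0]; simp
    have hb1 : β' = 0 := by rw [hβ', hb0]; simp
    rw [ht1, hb1]
    simp only [one_mul, add_zero, sub_zero]
    exact up_of_bd P hPm (C0 / cP) hA hP4 hP1

/-- OR-E2 -/
theorem cov (hg : S_GTW) (hp : S_PLW) : S_COV := by
  obtain ⟨K, hK, hg⟩ := hg
  obtain ⟨cP, hcP, hp⟩ := hp
  obtain ⟨_, C0, _, _, hC0, _, hld⟩ := Pool.Agent.Z864.RG.ldk K 2 hK
  refine ⟨1 / (32 * (C0 / cP) ^ 2), 1 + 2 * Real.pi * (C0 / cP), by positivity, by positivity,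
    fun n V V' hV h4 E hE θ => ?_⟩
  by_cases hθ : θ = 0
  · subst hθ
    have : VW (ind (KV V E)) (fun x => ⟪x, (0 : Eu (Fin n))⟫_ℝ) = 0 := by
      simp [VW, EW]
    rw [this]
    simp
  · cases n with
    | zero => exact absurd (Subsingleton.elim θ 0) hθ
    | succ n =>
      have hn : 0 < ‖θ‖ := norm_pos_iff.2 hθ
      set t := ‖θ‖⁻¹ • θ with ht
      have ht1 : ‖t‖ = 1 := by
        rw [ht, norm_smul, norm_inv, norm_norm]; field_simp
      have hθt : θ = ‖θ‖ • t := by rw [ht, smul_smul]; field_simp; simp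
      obtain ⟨hb, g, hgI, hform⟩ := hg n V V' hV h4 t ht1
      obtain ⟨_, hl1, hl4⟩ := hld g hgI
      obtain ⟨m1, m2⟩ := main hV hE t g hgI.meas C0 cP hC0 hcP hl1 hl4 hb (hform E)
        (hp (n + 1) V V' hV h4 E hE)
      have hVs : VW (ind (KV V E)) (fun x => ⟪x, θ⟫_ℝ) =
          ‖θ‖ ^ 2 * VW (ind (KV V E)) (fun x => ⟪x, t⟫_ℝ) := by
        have e : (fun x : Eu (Fin (n + 1)) => ⟪x, θ⟫_ℝ) = fun x => ‖θ‖ * ⟪x, t⟫_ℝ := by
          funext x
          conv_lhs => rw [hθt]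
          rw [inner_smul_right]
        rw [e]
        unfold VW EW
        have e1 : (fun x : Eu (Fin (n + 1)) => (‖θ‖ * ⟪x, t⟫_ℝ) ^ 2 * ind (KV V E) x) =
            fun x => ‖θ‖ ^ 2 * (⟪x, t⟫_ℝ ^ 2 * ind (KV V E) x) := by funext x; ring
        have e2 : (fun x : Eu (Fin (n + 1)) => ‖θ‖ * ⟪x, t⟫_ℝ * ind (KV V E) x) =
            fun x => ‖θ‖ * (⟪x, t⟫_ℝ * ind (KV V E) x) := by funext x; ring
        simp only [e1, e2, integral_const_mul]
        ring
      have hbs : ⟪bb V, θ⟫_ℝ = ‖θ‖ * ⟪bb V, t⟫_ℝ := by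
        conv_lhs => rw [hθt]
        rw [inner_smul_right]
      rw [hVs, hbs]
      constructor
      · have h9 := mul_le_mul_of_nonneg_left m1 (sq_nonneg ‖θ‖)
        refine le_trans (le_of_eq ?_) h9
        ring
      · intro h0
        have h1 : ⟪bb V, t⟫_ℝ = 0 := by
          rcases mul_eq_zero.1 h0 with h | h
          · exact absurd h hn.ne'
          · exact h
        have h9 := mul_le_mul_of_nonneg_left (m2 h1) (sq_nonneg ‖θ‖)
        linarith

end Pool.Agent.R834.OR
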